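import Pool.Agent.H629.CG.Stm

/-!
# Concave moments of sets where the covariance is large
-/

set_option autoImplicit false

namespace Pool.Agent.H331.CG.SML

open MeasureTheory ProbabilityTheory Filter Topology Set Pool.Agent.H629.CG
open scoped ENNReal NNReal

/-- the constant field -/
noncomputable def YY (v : ℝ) (_ : ℝ) (ω : ℝ) : ℝ := √v * ω - v / 2

theorem law (v : ℝ) (u : ℝ) : ∃ w : ℝ≥0, HasLaw (YY v u) (gaussianReal (-v / 2) w)
    (gaussianReal 0 1) := by
  have h := gaussianReal_sub_const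
    (gaussianReal_const_mul (HasLaw.id (μ := gaussianReal 0 1)) (√v)) (v / 2)
  have e : -v / 2 = √v * 0 - v / 2 := by ring
  rw [e]
  exact ⟨_, h⟩

theorem lnf (A : Set ℝ) {v : ℝ} (hv : 0 ≤ v) :
    LNF A (gaussianReal 0 1) (YY v) (fun _ _ => v) where
  meas := by
    unfold YY Function.uncurry
    fun_prop
  gauss n t _ := by
    obtain ⟨w, hw⟩ := law v 0
    have h := hw.hasGaussianLaw
    exact h.map_fun (ContinuousLinearMap.pi fun _ : Fin n => ContinuousLinearMap.id ℝ ℝ)
  mean t _ := by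
    obtain ⟨w, hw⟩ := law v t
    rw [hw.integral_eq, integral_id_gaussianReal]
  cov s _ t _ := by
    have h1 : YY v s = YY v t := rfl
    have hm : AEStronglyMeasurable (fun ω : ℝ => √v * ω) (gaussianReal 0 1) := by fun_prop
    have hm' : AEMeasurable (YY v t) (gaussianReal 0 1) := by
      unfold YY
      fun_prop
    rw [h1, covariance_self hm']
    change Var[fun ω => √v * ω - v / 2; gaussianReal 0 1] = v
    rw [variance_sub_const hm, variance_const_mul, variance_fun_id_gaussianReal,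
      Real.sq_sqrt hv, NNReal.coe_one, mul_one]

theorem gexp (t c : ℝ) :
    ∫⁻ ω, ENNReal.ofReal (Real.exp (t * ω - c)) ∂(gaussianReal 0 1) = ex (t ^ 2 / 2 - c) := by
  have hi : Integrable (fun x : ℝ => Real.exp (t * x - c)) (gaussianReal 0 1) := by
    have h := (integrable_exp_mul_gaussianReal (μ := 0) (v := 1) t).mul_const (Real.exp (-c))
    refine h.congr (Eventually.of_forall fun x => ?_)
    change Real.exp (t * x) * Real.exp (-c) = Real.exp (t * x - c)
    rw [← Real.exp_add, sub_eq_add_neg]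
  rw [← ofReal_integral_eq_lintegral_ofReal hi
    (Eventually.of_forall fun x => (Real.exp_pos _).le), ex]
  congr 1
  have h1 : ∫ x, Real.exp (t * x - c) ∂(gaussianReal 0 1) =
      (∫ x, Real.exp (t * x) ∂(gaussianReal 0 1)) * Real.exp (-c) := by
    rw [← integral_mul_const]
    refine integral_congr_ae (Eventually.of_forall fun x => ?_)
    change Real.exp (t * x - c) = Real.exp (t * x) * Real.exp (-c)
    rw [← Real.exp_add, sub_eq_add_neg]
  have h2 : ∫ x, Real.exp (t * x) ∂(gaussianReal 0 1) = Real.exp (t ^ 2 / 2) := by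
    have h := congrFun (mgf_fun_id_gaussianReal (μ := 0) (v := 1)) t
    rw [mgf] at h
    rw [h]
    congr 1
    push_cast
    ring
  rw [h1, h2, ← Real.exp_add, sub_eq_add_neg]

theorem mas_YY (A : Set ℝ) (v ω : ℝ) :
    mas A (YY v) ω = ENNReal.ofReal (Real.exp (√v * ω - v / 2)) * volume A := by
  rw [mas]
  change ∫⁻ _ in A, ENNReal.ofReal (Real.exp (√v * ω - v / 2)) = _
  rw [setLIntegral_const]

theorem mom_YY (A : Set ℝ) {v s : ℝ} (hv : 0 ≤ v) (hs : 0 ≤ s) :
    mom (gaussianReal 0 1) A (YY v) s = (volume A) ^ s * ex (-((s - s ^ 2) / 2 * v)) := by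
  rw [mom]
  have h1 : ∀ ω, mas A (YY v) ω ^ s =
      (volume A) ^ s * ENNReal.ofReal (Real.exp (s * √v * ω - s * (v / 2))) := by
    intro ω
    rw [mas_YY, ENNReal.mul_rpow_of_nonneg _ _ hs, mul_comm,
      ENNReal.ofReal_rpow_of_pos (Real.exp_pos _), ← Real.exp_mul]
    congr 4
    ring
  rw [lintegral_congr h1, lintegral_const_mul _ (by fun_prop), gexp]
  congr 2
  rw [mul_pow, Real.sq_sqrt hv]
  ring

theorem t_SML : S_KAH → S_JEN → S_SML := by
  intro hK hJ Ω _ P _ A X K hA hAt hX v V hvV s hs0 hs1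
  rcases eq_or_ne (volume A) 0 with h0 | h0
  · have h1 : mom P A X s = 0 := by
      rw [mom]
      have : ∀ ω, mas A X ω ^ s = 0 := by
        intro ω
        rw [mas, setLIntegral_measure_zero _ _ h0, ENNReal.zero_rpow_of_pos hs0]
      rw [lintegral_congr this, lintegral_zero]
    rw [h1]
    exact bot_le
  have hpos : 0 < volume A := pos_iff_ne_zero.2 h0
  rcases lt_or_ge v 0 with hv | hv
  · have h1 := (hJ Ω P A X K hA hpos hAt hX s).2.1 hs0.le hs1.le
    refine h1.trans ?_
    have h2 : (1 : ℝ≥0∞) ≤ ex (-((s - s ^ 2) / 2 * v)) := by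
      rw [ex, ENNReal.one_le_ofReal, Real.one_le_exp_iff]
      have : 0 ≤ s - s ^ 2 := by nlinarith
      nlinarith
    calc volume A ^ s = volume A ^ s * 1 := (mul_one _).symm
      _ ≤ _ := mul_le_mul_right h2 _
  · rw [← mom_YY A hv hs0.le]
    exact (hK ℝ Ω (gaussianReal 0 1) P A (YY v) X (fun _ _ => v) K hA hpos hAt (lnf A hv) hX
      ⟨V, fun t ht => (hvV t ht t ht).2⟩ (fun s hs t ht => (hvV s hs t ht).1) s).2 hs0.le hs1.le

end Pool.Agent.H331.CG.SML
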